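import Pool.Agent.KS6_1.RF.SL.Aut

set_option autoImplicit false

namespace Pool.Agent.Results.MP_d3f668_al.EmbedTorsionFree

/-- The spherical conjugacy language of the group `G` with respect to the letters `α`, ordered by
the linear order of `α` and evaluated by `ι`: the words `w` that are least in the shortlex order
among all words representing an element of the conjugacy class of the element `w` represents
(every conjugacy class has exactly one such word). -/
def SL {G : Type} [Group G] {α : Type} [LinearOrder α] (ι : α → G) : Language α :=
  {w : List α | ∀ v : List α, IsConj (v.map ι).prod (w.map ι).prod →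
    (w.length < v.length ∨ (w.length = v.length ∧ (w = v ∨ w < v)))}

/-- EVERY countable torsion-free group `H` embeds in a torsion-free group `G` that has a finite,
inverse-closed, linearly ordered generating set (indexed by `α` through the injective map `ι`)
whose spherical conjugacy language is regular. -/
theorem result (H : Type) [Group H] [Countable H] (tfH : ∀ h : H, h ≠ 1 → ¬ IsOfFinOrder h) :
    ∃ (G : Type) (_ : Group G), (∀ g : G, g ≠ 1 → ¬ IsOfFinOrder g) ∧
      (∃ f : H →* G, Function.Injective f) ∧
      ∃ (α : Type) (_ : Fintype α) (_ : LinearOrder α) (ι : α → G),
        Function.Injective ι ∧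
        (∀ a : α, ∃ b : α, ι b = (ι a)⁻¹) ∧
        Subgroup.closure (Set.range ι) = ⊤ ∧
        (SL ι).IsRegular :=
  Pool.Agent.KS6_1.SLH.main tfH

end Pool.Agent.Results.MP_d3f668_al.EmbedTorsionFree
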